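import Pool.Graph.R_seed8.Results.MP_5b8a1a_al.GroebnerCoherent

/-!
# Gröbner-coherence passes from the divided power algebra to its rationalization
-/

set_option autoImplicit false

universe u v

namespace KS6_55.GC

open V1125.DPow Polynomial

/-- The positive integers, as a multiplicative subset of a ring. -/
def posInt (R : Type u) [CommRing R] : Submonoid R where
  carrier := {m | ∃ s : ℕ, 0 < s ∧ m = (s : R)}
  mul_mem' := by
    rintro _ _ ⟨s, hs, rfl⟩ ⟨t, ht, rfl⟩
    exact ⟨s * t, Nat.mul_pos hs ht, by push_cast; rfl⟩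
  one_mem' := ⟨1, one_pos, by simp⟩

variable {k : Type u} [CommRing k]

theorem natCast_mul_eq_smul (s : ℕ) (f : DP k) : (s : DP k) * f = (s : k) • f := by
  rw [← nsmul_eq_mul, ← Nat.cast_smul_eq_nsmul k]

variable {K : Type v} [CommRing K] [Algebra ℚ K] {ψ : k →+* K}

omit [Algebra ℚ K] in
theorem isUnit_nat [Algebra ℚ K] (s : ℕ) (hs : 0 < s) : IsUnit ((s : ℕ) : K[X]) := by
  have h : IsUnit ((s : ℚ)) := IsUnit.mk0 _ (by exact_mod_cast hs.ne')
  have h2 := h.map ((C : K →+* K[X]).comp (algebraMap ℚ K))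
  rwa [map_natCast] at h2

theorem surj_phi (h2 : ∀ z : K, ∃ s : ℕ, 0 < s ∧ ∃ a : k, (s : K) * z = ψ a) (p : K[X]) :
    ∃ s : ℕ, 0 < s ∧ ∃ f : DP k, (s : K[X]) * p = phi ψ f := by
  induction p using Polynomial.induction_on' with
  | add p q hp hq =>
    obtain ⟨s, hs, f, hf⟩ := hp
    obtain ⟨t, ht, g, hg⟩ := hq
    refine ⟨s * t, Nat.mul_pos hs ht, (t : DP k) * f + (s : DP k) * g, ?_⟩
    rw [map_add, map_mul, map_mul, map_natCast, map_natCast, ← hf, ← hg]
    push_cast; ring
  | monomial n z =>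
    obtain ⟨s, hs, a, ha⟩ := h2 z
    refine ⟨s, hs, mono n ((n.factorial : k) * a), ?_⟩
    have h3 : ψ ((n.factorial : k) * a) * invf K n = (s : K) * z := by
      calc ψ ((n.factorial : k) * a) * invf K n
          = ((n.factorial : K) * invf K n) * ψ a := by rw [map_mul, map_natCast]; ring
        _ = _ := by rw [fact_mul_invf, one_mul, ha]
    rw [phi_mono, h3, ← C_mul_monomial, map_natCast]

theorem isLoc (h1 : ∀ a : k, ψ a = 0 → ∃ s : ℕ, 0 < s ∧ (s : k) * a = 0)
    (h2 : ∀ z : K, ∃ s : ℕ, 0 < s ∧ ∃ a : k, (s : K) * z = ψ a) :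
    @IsLocalization (DP k) _ (posInt (DP k)) K[X] _ (phi ψ).toAlgebra := by
  let _ := (phi ψ).toAlgebra
  rw [isLocalization_iff]
  refine ⟨?_, ?_, ?_⟩
  · rintro ⟨_, s, hs, rfl⟩
    show IsUnit (phi ψ (s : DP k))
    rw [map_natCast]
    exact isUnit_nat s hs
  · intro z
    obtain ⟨s, hs, f, hf⟩ := surj_phi h2 z
    refine ⟨(f, ⟨(s : DP k), s, hs, rfl⟩), ?_⟩
    show z * phi ψ (s : DP k) = phi ψ f
    rw [map_natCast, ← hf, mul_comm]
  · intro x y hxy
    have h3 : phi ψ (x - y) = 0 := by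
      rw [map_sub, sub_eq_zero]; exact hxy
    obtain ⟨s, hs, h4⟩ := tors_of_phi h1 _ h3
    refine ⟨⟨(s : DP k), s, hs, rfl⟩, ?_⟩
    show (s : DP k) * x = (s : DP k) * y
    rw [natCast_mul_eq_smul, natCast_mul_eq_smul, ← sub_eq_zero, ← smul_sub]
    exact h4

/-- Graded coherence passes to the rationalization. -/
theorem graded (h1 : ∀ a : k, ψ a = 0 → ∃ s : ℕ, 0 < s ∧ (s : k) * a = 0)
    (h2 : ∀ z : K, ∃ s : ℕ, 0 < s ∧ ∃ a : k, (s : K) * z = ψ a)
    (hD : GradedCoherent (dpComp (k := k))) : GradedCoherent (polyComp (K := K)) := by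
  classical
  let _ := (phi ψ).toAlgebra
  have hloc : IsLocalization (posInt (DP k)) K[X] := isLoc h1 h2
  intro J hJ hhom
  obtain ⟨r, p, hp⟩ := Submodule.fg_iff_exists_fin_generating_family.1 hJ
  set N : ℕ := Finset.univ.sup fun j => (p j).natDegree with hN
  obtain ⟨s, hs, a, ha⟩ := common_denom h2
    (fun x : Fin r × Fin (N + 1) => ((x.2 : ℕ).factorial : K) * (p x.1).coeff x.2)
  have hphi : ∀ x : Fin r × Fin (N + 1), phi ψ (mono (x.2 : ℕ) (a x)) =
      (s : K[X]) * monomial (x.2 : ℕ) ((p x.1).coeff x.2) := by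
    intro x
    rw [phi_mono, ← ha x]
    have h3 : (s : K) * ((((x.2 : ℕ).factorial : ℕ) : K) * (p x.1).coeff x.2) * invf K (x.2 : ℕ) =
        (s : K) * (p x.1).coeff x.2 := by
      calc _ = ((((x.2 : ℕ).factorial : ℕ) : K) * invf K (x.2 : ℕ)) *
            ((s : K) * (p x.1).coeff x.2) := by ring
        _ = _ := by rw [fact_mul_invf, one_mul]
    rw [h3, ← C_mul_monomial, map_natCast]
  set I : Ideal (DP k) := Ideal.span (Set.range fun x : Fin r × Fin (N + 1) =>
    (mono (x.2 : ℕ) (a x) : DP k)) with hI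
  have hfp : Module.FinitePresentation (DP k) I :=
    hD I (Submodule.fg_span (Set.finite_range _)) (homog_span _ _)
  obtain ⟨us, hus⟩ := isUnit_nat (K := K) s hs
  have hJI : J = Submodule.localized' K[X] (posInt (DP k)) (Algebra.linearMap (DP k) K[X]) I := by
    rw [hI, Ideal.span, Submodule.localized'_span, ← hp]
    apply le_antisymm
    · rw [Submodule.span_le]
      rintro _ ⟨j, rfl⟩
      have h3 : p j = ∑ i : Fin (N + 1), monomial (i : ℕ) ((p j).coeff i) := by
        conv_lhs => rw [(p j).as_sum_range' (N + 1)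
          (Nat.lt_succ_of_le (Finset.le_sup (f := fun j => (p j).natDegree)
            (Finset.mem_univ j)))]
        rw [Finset.sum_range]
      rw [SetLike.mem_coe, h3]
      refine Submodule.sum_mem _ fun i _ => ?_
      have h4 : monomial (i : ℕ) ((p j).coeff i) =
          ((us⁻¹ : K[X]ˣ) : K[X]) • (phi ψ (mono (i : ℕ) (a (j, i)))) := by
        rw [hphi (j, i), ← hus, smul_eq_mul, Units.inv_mul_cancel_left]
      rw [h4]
      exact Submodule.smul_mem _ _ (Submodule.subset_span ⟨_, ⟨(j, i), rfl⟩, rfl⟩)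
    · rw [Submodule.span_le]
      rintro _ ⟨_, ⟨x, rfl⟩, rfl⟩
      have h5 : phi ψ (mono (x.2 : ℕ) (a x)) ∈ J := by
        rw [hphi x]
        refine Ideal.mul_mem_left _ _ (hhom _ ?_ (x.2 : ℕ))
        rw [← hp]
        exact Submodule.subset_span ⟨x.1, rfl⟩
      rw [← hp] at h5
      exact h5
  rw [hJI]
  exact FinitePresentation.of_isBaseChange (Submodule.toLocalized' K[X] (posInt (DP k))
    (Algebra.linearMap (DP k) K[X]) I)
    ((isLocalizedModule_iff_isBaseChange (posInt (DP k)) K[X] _).mp inferInstance)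

/-- Components of `phi`. -/
theorem polyComp_phi (n : ℕ) (f : DP k) : polyComp n (phi ψ f) = phi ψ (dpComp n f) := by
  rw [polyComp, dpComp, coeff_phi, phi_mono]

theorem polyComp_natCast_mul (s n : ℕ) (p : K[X]) :
    polyComp n ((s : K[X]) * p) = (s : K[X]) * polyComp n p := by
  rw [polyComp, polyComp, ← map_natCast (C : K →+* K[X]) s, coeff_C_mul, C_mul_monomial]

/-- Finite generation of initial ideals passes to the rationalization. -/
theorem initial (h1 : ∀ a : k, ψ a = 0 → ∃ s : ℕ, 0 < s ∧ (s : k) * a = 0)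
    (h2 : ∀ z : K, ∃ s : ℕ, 0 < s ∧ ∃ a : k, (s : K) * z = ψ a)
    (hD : ∀ I : Ideal (DP k), I.FG → (inIdeal (dpComp (k := k)) I).FG)
    (J : Ideal K[X]) (hJ : J.FG) : (inIdeal (polyComp (K := K)) J).FG := by
  classical
  let _ := (phi ψ).toAlgebra
  have hloc : IsLocalization (posInt (DP k)) K[X] := isLoc h1 h2
  obtain ⟨r, p, hp⟩ := Submodule.fg_iff_exists_fin_generating_family.1 hJ
  have hch : ∀ j, ∃ s : ℕ, 0 < s ∧ ∃ f : DP k, (s : K[X]) * p j = phi ψ f :=
    fun j => surj_phi h2 (p j)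
  choose s hs F hF using hch
  set I : Ideal (DP k) := Ideal.span (Set.range F) with hI
  have hJI : J = I.map (algebraMap (DP k) K[X]) := by
    rw [hI, Ideal.map_span, ← hp]
    apply le_antisymm
    · rw [Submodule.span_le]
      rintro _ ⟨j, rfl⟩
      obtain ⟨us, hus⟩ := isUnit_nat (K := K) (s j) (hs j)
      have h4 : p j = ((us⁻¹ : K[X]ˣ) : K[X]) * phi ψ (F j) := by
        rw [← hF j, ← hus, Units.inv_mul_cancel_left]
      rw [SetLike.mem_coe, h4]
      exact Ideal.mul_mem_left _ _ (Ideal.subset_span ⟨_, ⟨j, rfl⟩, rfl⟩)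
    · rw [Ideal.span_le]
      rintro _ ⟨_, ⟨j, rfl⟩, rfl⟩
      show phi ψ (F j) ∈ Ideal.span (Set.range p)
      rw [← hF j]
      exact Ideal.mul_mem_left _ _ (Ideal.subset_span ⟨j, rfl⟩)
  have heq : inIdeal (polyComp (K := K)) J =
      (inIdeal (dpComp (k := k)) I).map (algebraMap (DP k) K[X]) := by
    apply le_antisymm
    · rw [inIdeal, Ideal.span_le]
      rintro _ ⟨g, hg, n, rfl, hne, hn⟩
      rw [hJI, IsLocalization.mem_map_algebraMap_iff (posInt (DP k))] at hg
      obtain ⟨⟨⟨f, hf⟩, ⟨_, t, ht, rfl⟩⟩, hgf⟩ := hg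
      have hgf' : (t : K[X]) * g = phi ψ f := by
        have h5 : g * phi ψ (t : DP k) = phi ψ f := hgf
        rw [map_natCast] at h5
        rw [mul_comm]; exact h5
      -- kill the torsion components above `n`
      have htor : ∀ m, ∃ c : ℕ, 0 < c ∧ (n < m → (c : k) • dpComp m f = 0) := by
        intro m
        by_cases hm : n < m
        · obtain ⟨c, hc, hc'⟩ := tors_of_phi h1 (dpComp m f) (by
            rw [← polyComp_phi, ← hgf', polyComp_natCast_mul, hn m hm, mul_zero])
          exact ⟨c, hc, fun _ => hc'⟩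
        · exact ⟨1, one_pos, fun h => absurd h hm⟩
      choose c hc hc' using htor
      obtain ⟨B, hB⟩ := exists_bound f
      set q : ℕ := ∏ i ∈ Finset.range (B + 1), c i with hq
      have hqpos : 0 < q := Finset.prod_pos fun i _ => hc i
      have hkill : ∀ m, n < m → (q : k) • dpComp m f = 0 := by
        intro m hm
        by_cases hmB : m < B + 1
        · rw [hq, ← Finset.prod_erase_mul (Finset.range (B + 1)) c (Finset.mem_range.2 hmB)]
          push_cast
          rw [mul_smul, hc' m hm, smul_zero]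
        · rw [dpComp, hB m (by omega), map_zero, smul_zero]
      have hcomp : ∀ m, dpComp m ((q : DP k) * f) = (q : k) • dpComp m f := by
        intro m
        rw [natCast_mul_eq_smul, dpComp, dpComp, map_smul, map_smul]
      have hmem : dpComp n ((q : DP k) * f) ∈ inIdeal (dpComp (k := k)) I := by
        refine Ideal.subset_span ⟨(q : DP k) * f, Ideal.mul_mem_left _ _ hf, n, rfl, ?_, ?_⟩
        · intro h0
          have h6 : phi ψ (dpComp n ((q : DP k) * f)) = 0 := by rw [h0, map_zero]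
          rw [← polyComp_phi, map_mul, map_natCast, ← hgf', polyComp_natCast_mul,
            polyComp_natCast_mul] at h6
          exact hne ((isUnit_nat (K := K) t ht).mul_left_eq_zero.1 (by
            have h7 := (isUnit_nat (K := K) q hqpos).mul_right_eq_zero.1 h6
            rwa [mul_comm] at h7))
        · intro m hm
          rw [hcomp, hkill m hm]
      obtain ⟨uq, huq⟩ := isUnit_nat (K := K) q hqpos
      obtain ⟨ut, hut⟩ := isUnit_nat (K := K) t ht
      have h8 : polyComp n g = ((ut⁻¹ : K[X]ˣ) : K[X]) * (((uq⁻¹ : K[X]ˣ) : K[X]) *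
          phi ψ (dpComp n ((q : DP k) * f))) := by
        rw [← polyComp_phi, map_mul, map_natCast, ← hgf', polyComp_natCast_mul,
          polyComp_natCast_mul, ← huq, Units.inv_mul_cancel_left, ← hut,
          Units.inv_mul_cancel_left]
      rw [SetLike.mem_coe, h8]
      exact Ideal.mul_mem_left _ _ (Ideal.mul_mem_left _ _ (Ideal.mem_map_of_mem _ hmem))
    · rw [Ideal.map_le_iff_le_comap, inIdeal, Ideal.span_le]
      rintro _ ⟨f, hf, n, rfl, _, hn⟩
      show phi ψ (dpComp n f) ∈ inIdeal (polyComp (K := K)) J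
      by_cases h0 : phi ψ (dpComp n f) = 0
      · rw [h0]; exact Ideal.zero_mem _
      · refine Ideal.subset_span ⟨phi ψ f, ?_, n, (polyComp_phi n f).symm, h0, ?_⟩
        · rw [hJI]; exact Ideal.mem_map_of_mem _ hf
        · intro m hm
          rw [polyComp_phi, hn m hm, map_zero]
  rw [heq]
  exact (hD I (Submodule.fg_span (Set.finite_range _))).map _

end KS6_55.GC
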