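import Pool.Agent.KS6_55.GC.Conv

/-!
# Degree bounds
-/

set_option autoImplicit false

universe u v

namespace KS6_55.GC

open V1125.DPow Polynomial

variable {k : Type u} [CommRing k] {K : Type v} [CommRing K] [Algebra ℚ K] {ψ : k →+* K}

/-- Degree bounds pass from the rationalization to the divided power algebra (the library's
`uniform`, with its hypothesis weakened to what its proof uses). -/
theorem uniform' (hD : GradedCoherent (dpComp (k := k)))
    (h1 : ∀ a : k, ψ a = 0 → ∃ s : ℕ, 0 < s ∧ (s : k) * a = 0)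
    (h2 : ∀ z : K, ∃ s : ℕ, 0 < s ∧ ∃ a : k, (s : K) * z = ψ a)
    {ι : Type} [Fintype ι] (F : ι → DP k) (d : ℕ) (hF : ∀ j i, d < i → coeff i (F j) = 0)
    (l : ℕ) (hl : ∀ n, ∀ g ∈ Ideal.span (Set.range fun j => phi ψ (F j)), g.natDegree ≤ n →
      ∃ w : ι → K[X], (∀ j, (w j).natDegree ≤ n + l) ∧ g = ∑ j, w j * phi ψ (F j)) :
    ∃ b : ℕ, ∀ n, ∀ f ∈ Ideal.span (Set.range F), (∀ i, n < i → coeff i f = 0) →
      Rep F (n + b) f := by
  obtain ⟨P, hP0, hP⟩ := exists_P hD h1 h2 F d hF l hl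
  set Θ : ℕ := d.factorial * (P * (max (2 * d) P).factorial) with hΘ
  have hΘ0 : 0 < Θ := by positivity
  refine ⟨Θ + (d + 1) + d + l, fun n f hf hfn => ?_⟩
  set N1 : ℕ := Θ * (n / Θ + 1) with hN1
  have hN1a : n < N1 := by
    exact Nat.lt_mul_div_succ n hΘ0
  have hN1b : N1 ≤ n + Θ := by
    rw [hN1, mul_add, mul_one]
    have := Nat.mul_div_le n Θ
    omega
  have hN1d : Θ ∣ N1 := ⟨_, rfl⟩
  have r1 : Rep F (n + (Θ + (d + 1) + d + l)) (((sprod d N1 : ℕ) : k) • f) := by
    have := cut F d hF l P hP n N1 hN1a P 1 hP0 (one_mul P) (by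
      intro i j hij hj
      exact dvd_trans (Dvd.intro _ rfl) (dvd_choose_add hN1d hij hj)) f hf hfn
    rw [one_mul] at this
    exact this.mono' (by omega)
  have r2 : Rep F (n + (Θ + (d + 1) + d + l)) (((P * sprod d (n + 1) : ℕ) : k) • f) := by
    have := cut F d hF l P hP n (n + 1) (by omega) 1 P one_pos (mul_one P)
      (fun i j _ _ => one_dvd _) f hf hfn
    exact this.mono' (by omega)
  have r3 : Rep F (n + (Θ + (d + 1) + d + l)) (((P * sprod d (n + 1 + d) : ℕ) : k) • f) := by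
    have := cut F d hF l P hP n (n + 1 + d) (by omega) 1 P one_pos (mul_one P)
      (fun i j _ _ => one_dvd _) f hf hfn
    exact this.mono' (by omega)
  have r4 := r1.gcd (r2.gcd r3)
  rw [coprime_three hP0 hN1d, Nat.cast_one, one_smul] at r4
  exact r4

/-- Degree bounds and graded coherence imply Gröbner-coherence. -/
theorem of_bound (hD : GradedCoherent (dpComp (k := k)))
    (hB : ∀ (t : ℕ) (F : Fin t → DP k), ∃ b : ℕ, ∀ n, ∀ f ∈ Ideal.span (Set.range F),
      (∀ i, n < i → coeff i f = 0) →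
        ∃ h : Fin t → DP k, (∀ j i, n + b < i → coeff i (h j) = 0) ∧ f = ∑ j, h j * F j) :
    GroebnerCoherent (dpComp (k := k)) := by
  refine ⟨hD, fun I hI => ?_⟩
  obtain ⟨t, F, hF⟩ := Submodule.fg_iff_exists_fin_generating_family.1 hI
  obtain ⟨d, hd⟩ : ∃ d, ∀ j i, d < i → coeff i (F j) = 0 := by
    choose B hB using fun j => exists_bound (F j)
    exact ⟨Finset.univ.sup B, fun j m hm =>
      hB j m (lt_of_le_of_lt (Finset.le_sup (f := B) (Finset.mem_univ j)) hm)⟩
  obtain ⟨b, hb⟩ := hB t F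
  apply inIdeal_fg
  apply U_zero hD I (b + d)
  refine ⟨Fin t, inferInstance, F, fun _ => d, hd, fun i => ?_, fun n f hf hfn => ?_⟩
  · rw [← hF]; exact Submodule.subset_span ⟨i, rfl⟩
  · have hf' : f ∈ Ideal.span (Set.range F) := by
      rw [← hF] at hf; exact hf
    obtain ⟨h, hh, hfh⟩ := hb n f hf' hfn
    exact ⟨h, fun i m hm => hh i m (by simp only at hm; omega), hfh⟩

end KS6_55.GC
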